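import Mathlib
import Pool.Agent.R958.GrpC
import Pool.Agent.R958.GrpD

/-!
# The percolation threshold of every infinite countable group is one

For every `l > 1` a generating measure with critical parameter at most `l` is built from a sequence
of elements in general position with slowly decreasing weights.
-/

set_option autoImplicit false

open MeasureTheory ProbabilityTheory
open scoped ENNReal NNReal

namespace Pool.Agent.Results.MP_da416c_pr.ThresholdOne

open Pool.Agent.Results.MP_7c03a7_pr.DimGtOne

/-- The percolation threshold of a group: the infimum of the critical parameters of its generating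
measures. -/
noncomputable def threshold (Γ : Type*) [Group Γ] : ℝ≥0∞ :=
  ⨅ μ : GeneratingMeasure Γ, criticalParameter μ

/-- **Every infinite countable group has percolation threshold one.** -/
theorem result (Γ : Type*) [Group Γ] [Countable Γ] [Infinite Γ] : threshold Γ = 1 := by
  obtain ⟨ν, _⟩ := Pool.Agent.Results.MP_9aa340_pr.FiniteThreshold.result Γ
  apply le_antisymm
  · refine ENNReal.le_of_forall_pos_le_add fun ε hε _ => ?_
    have hl : (1 : ℝ) < 1 + (ε : ℝ) := by
      have : (0 : ℝ) < ε := by exact_mod_cast hε
      linarith
    obtain ⟨μ, hμ⟩ := Pool.Agent.R958.Grp.upper ν hl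
    refine (iInf_le _ μ).trans (hμ.trans (le_of_eq ?_))
    rw [ENNReal.ofReal_add zero_le_one (by positivity), ENNReal.ofReal_one,
      ENNReal.ofReal_coe_nnreal]
  · exact le_iInf fun μ => Pool.Agent.R958.Grp.lower μ

end Pool.Agent.Results.MP_da416c_pr.ThresholdOne
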